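import Pool.Agent.helper16.EXT.Spec3T

set_option autoImplicit false

open Finset

namespace Pool.Agent.EXT

open Pool.Agent.EXC

theorem IM2_three {F : Type} [Field F] [Finite F] (h : ¬ 3 ∣ Nat.card F) : (3 : F) ≠ 0 := by
  intro h3
  apply h
  have h1 : addOrderOf (1 : F) = 3 := by
    have : Fact (Nat.Prime 3) := ⟨Nat.prime_three⟩
    apply addOrderOf_eq_prime
    · rw [nsmul_eq_mul, mul_one]
      exact_mod_cast h3
    · exact one_ne_zero
  rw [← h1]
  exact addOrderOf_dvd_natCard (1 : F)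

theorem IM2_flat {G : Type} [Monoid G] {ι : Type} (f : ι → G) (p q : ι) (m : ℕ) :
    (((List.replicate m [p, q]).flatten).map f).prod = (f p * f q) ^ m := by
  induction m with
  | zero => simp
  | succ k ih =>
    rw [List.replicate_succ, List.flatten_cons, List.map_append, List.prod_append, ih, pow_succ']
    simp

theorem IM2_ext {K : Type} [Field K] {τ : K ≃+* K} {a : Lm C6 K} {t : K} {f g : GF τ}
    (hf : IsF τ a t (f : Equiv.Perm (LT τ))) (hg : IsF τ a t (g : Equiv.Perm (LT τ))) : f = g := by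
  refine Subtype.ext (Equiv.ext fun v => Subtype.ext ?_)
  rw [hf v, hg v]

theorem IM2_one {K : Type} [Field K] {τ : K ≃+* K} {a : Lm C6 K} {f : GF τ}
    (hf : IsF τ a 0 (f : Equiv.Perm (LT τ))) : f = 1 := by
  refine Subtype.ext (Equiv.ext fun v => Subtype.ext ?_)
  rw [hf v]
  simp [xe]

theorem IM2_key (hIW2 : IW2_stmt) (hFXF : FXF_stmt) (hGFX : GFX_stmt)
    (K : Type) [Field K] [Finite K] (τ : K ≃+* K) (hτ : ∀ x, τ (τ x) = x) (x : MulAut (GF τ))
    (σ : K0 τ ≃+* K0 τ) (a b : Lm C6 K) (κ : K0 τ) (hκ : (κ : K) = fm C6 a b) (c₀ : K0 τ)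
    (ha : ExS τ a) (hb : ExS τ b) (hT : TpS τ a b (-2)) (hSL : SLF τ x σ a b c₀) (u : K0 τ)
    (hM : ∀ m : ℕ, (!![1, 0; κ * (c₀ * σ u), 1] * !![1, u; 0, 1] : Matrix (Fin 2) (Fin 2) (K0 τ)) ^ m = 1 → 3 ∣ m) :
    2 ∈ Pool.Agent.GS.CSet 3 x := by
  have hX := (hGFX K τ hτ).2
  have hch : ∀ p : Bool × K0 τ, ∃ h : GF τ, IsF τ (if p.1 then b else a) (p.2 : K) (h : Equiv.Perm (LT τ)) := by
    intro p
    have hp : ExS τ (if p.1 then b else a) := by
      split_ifs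
      · exact hb
      · exact ha
    obtain ⟨f, h1, h2⟩ := (hX _ hp).1 (p.2 : K) (K0_fix τ p.2)
    exact ⟨⟨f, h1⟩, h2⟩
  choose h hh using hch
  set t : GF τ := h (false, u) with ht
  have ht1 : IsF τ a (u : K) (t : Equiv.Perm (LT τ)) := by
    have := hh (false, u)
    simpa using this
  have hxt : h (true, c₀ * σ u) = x t := by
    have h1 := hh (true, c₀ * σ u)
    simp only [if_true] at h1
    exact IM2_ext h1 (hSL u t ht1)
  have hti : h (false, -u) = t⁻¹ := by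
    rw [eq_inv_iff_mul_eq_one]
    have h1 := hh (false, -u)
    simp only [Bool.false_eq_true, if_false] at h1
    have h2 := (hX a ha).2.2.1 ((-u : K0 τ) : K) (u : K) _ _ h1 ht1
    have h3 : ((-u : K0 τ) : K) + (u : K) = 0 := by
      rw [Subfield.coe_neg, neg_add_cancel]
    rw [h3] at h2
    exact IM2_one (f := h (false, -u) * t) h2
  have h21 : 2 = 2 * 1 := rfl
  rw [h21]
  refine f_GRP (GF τ) x t 3 1 (fun _ => 1) le_rfl ?_
  intro m hm
  have hz : (List.ofFn fun i : Fin 1 => (1 : GF τ) * (x t * t⁻¹) * (1 : GF τ)⁻¹).prod = x t * t⁻¹ := by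
    simp
  rw [hz, ← map_pow] at hm
  have hc : ∀ g : GF τ, (x t * t⁻¹) ^ m * g = g * (x t * t⁻¹) ^ m := by
    intro g
    have h1 : MulAut.conj ((x t * t⁻¹) ^ m) g = g := by rw [hm]; rfl
    rw [MulAut.conj_apply] at h1
    exact mul_inv_eq_iff_eq_mul.1 h1
  have h1 := (hFXF K τ hτ).2 _ hc
  have h2 := hIW2 K τ hτ a b hT κ hκ h hh ((List.replicate m [(true, c₀ * σ u), (false, -u)]).flatten)
    (by rw [IM2_flat, hxt, hti]; exact h1)
  rw [IM2_flat] at h2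
  apply hM
  simpa using h2

theorem IM2 (hIW2 : IW2_stmt) (hISC : ISC_stmt) (hISL : ISL_stmt) (hIKS : IKS_stmt) (hFXF : FXF_stmt)
    (hESF : ESF_stmt) (hGFX : GFX_stmt) (hTFS : TFS_stmt) (hSIG : SIG_stmt) : IM2_stmt := by
  intro K _ _ τ hτ h3 x hRA hpr a b ha hb hIm hT
  have h3K := K0_three τ h3
  have h3' : (3 : K0 τ) ≠ 0 := IM2_three h3K
  have hκ' : fm C6 a b ≠ 0 := ((hTFS K τ hτ a b (-2) hT).2.2.2.2.2.2.1).2 rfl
  have hX := (hGFX K τ hτ).2
  obtain ⟨-, -, -, -, hfm, -⟩ := hSIG K τ hτ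
  have hfix : τ (fm C6 a b) = fm C6 a b := by
    rw [← hfm, ((hESF K τ hτ).2 a ha).2.2.1, ((hESF K τ hτ).2 b hb).2.2.1]
  set κ : K0 τ := ⟨fm C6 a b, K0_mem τ hfix⟩ with hκd
  have hκe : (κ : K) = fm C6 a b := rfl
  have hκ : κ ≠ 0 := by
    intro h
    apply hκ'
    rw [← hκe, h]
    rfl
  obtain ⟨σ, hσ⟩ := hISC K τ hτ x hRA
  obtain ⟨c₀, hc₀, hSL⟩ := hσ a b ha hb hIm
  have hit := hISL K τ hτ x hRA σ hσ (orderOf x) (pow_orderOf_eq_one x)
  set c : K0 τ := κ * c₀ with hc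
  have hc0 : c ≠ 0 := mul_ne_zero hκ hc₀
  have hdet : ∀ u : K0 τ, (!![1, 0; κ * (c₀ * σ u), 1] * !![1, u; 0, 1] : Matrix (Fin 2) (Fin 2) (K0 τ)).det = 1 := by
    intro u
    rw [Matrix.det_mul, Matrix.det_fin_two_of, Matrix.det_fin_two_of]
    ring
  have htr : ∀ u : K0 τ, (!![1, 0; κ * (c₀ * σ u), 1] * !![1, u; 0, 1] : Matrix (Fin 2) (Fin 2) (K0 τ)).trace =
      2 + c * (u * σ u) := by
    intro u
    rw [Matrix.trace_fin_two, Matrix.mul_apply, Matrix.mul_apply, Fin.sum_univ_two, Fin.sum_univ_two]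
    simp
    rw [hc]
    ring
  obtain ⟨v, hv0, hv⟩ := A3.g_ZQR (K0 τ) h3K c hc0
  have main : ∀ u : K0 τ, u * σ u = v ^ 2 → 2 ∈ Pool.Agent.GS.CSet 3 x := by
    intro u hu
    refine IM2_key hIW2 hFXF hGFX K τ hτ x σ a b κ hκe c₀ ha hb hT hSL u ?_
    exact hv _ (hdet u) (by rw [htr u, hu])
  rcases hpr.eq_two_or_odd' with h2 | hodd
  · by_cases hs : ∀ u, σ u = u
    · exact main v (by rw [hs v, sq])
    · push Not at hs
      obtain ⟨w, hw⟩ := hs
      rw [h2] at hit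
      have hx2 : ∀ g : GF τ, x (x g) = g := by
        intro g
        have h5 : x ^ 2 = 1 := by rw [← h2]; exact pow_orderOf_eq_one x
        have h6 : (x ^ 2) g = g := by rw [h5]; rfl
        rw [sq] at h6
        exact h6
      have hIm' : ImF τ x b a := by
        intro h
        have h7 := hIm (x h)
        rw [hx2 h] at h7
        exact h7.symm
      obtain ⟨d, hd, hSL'⟩ := hσ b a hb ha hIm'
      obtain ⟨h, hh1, hh2⟩ := (hX a ha).1 ((1 : K0 τ) : K) (K0_fix τ 1)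
      have h8 := hSL 1 ⟨h, hh1⟩ hh2
      rw [map_one, mul_one] at h8
      have h9 := hSL' c₀ (x ⟨h, hh1⟩) h8
      rw [hx2] at h9
      have h10 : d * σ c₀ = 1 := by
        apply Subtype.ext
        exact (hX a ha).2.2.2.1 _ _ _ h9 hh2
      have h11 := hIKS K τ hτ x σ a b κ c₀ d ha hb hκe hκ hc₀ hd hSL hSL'
      have h12 : σ c = c := by
        rw [hc, map_mul, h11]
        linear_combination (κ * c₀) * h10
      obtain ⟨u, hu0, hu⟩ := A3.g_ZNR (K0 τ) σ (fun u => hit u) ⟨w, hw⟩ (-c⁻¹) (neg_ne_zero.2 (inv_ne_zero hc0))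
        (by rw [map_neg, map_inv₀, h12])
      refine IM2_key hIW2 hFXF hGFX K τ hτ x σ a b κ hκe c₀ ha hb hT hSL u ?_
      refine (A3.g_ZMT (K0 τ)).2 h3' _ (hdet u) ?_
      rw [htr u, hu, mul_neg, mul_inv_cancel₀ hc0]
      ring
  · obtain ⟨u, -, hu⟩ := A3.g_ZAL (K0 τ) σ (orderOf x) hodd hit v hv0
    exact main u hu

end Pool.Agent.EXT
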